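import Mathlib
import Pool.Agent.Run7.h179.Har3

/-!
Harada's conjecture for the blocks that have a major subsection with one irreducible Brauer
character.
-/

namespace Pool.Agent.Results.MP_02e251_al.MajorOneBrauer

open Pool.Agent.H254R3.IN Pool.Agent.N20

/-- Let `B` be a `p`-block of a finite group `G` with defect group `D`. Suppose that `B` has a major
subsection `(u, b)` with `l(b) = 1`: `u` is a `p`-element of `G` (possibly `u = 1`), `b` is a block
of `C_G(u)` with `b^G = B` whose defect groups have order `|D|`, and `b` has exactly one irreducible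
Brauer character. If `J` is a nonempty set of irreducible characters of `B` with
`∑_{χ ∈ J} χ(1) χ(g) = 0` for all `p`-singular `g ∈ G`, then `J` is all of `Irr(B)`. -/
theorem result {G : Type} [Group G] [Finite G] {p : ℕ} (hp : p.Prime) (O : ValuationSubring ℂ)
    (hpO : (p : ℂ) ∈ O.nonunits) (B : Set (G → ℂ)) (hB : IsBlock O B) (D : Subgroup G)
    (hD : IsDefectGroup p O B D) (u : G) (k : ℕ) (hu : orderOf u = p ^ k)
    (b : Set (Subgroup.centralizer ({u} : Set G) → ℂ)) (hb : IsBlock O b)
    (Q : Subgroup (Subgroup.centralizer ({u} : Set G))) (hQ : IsDefectGroup p O b Q)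
    (hcard : Nat.card Q = Nat.card D) (hbB : Induces O B (Subgroup.centralizer ({u} : Set G)) b)
    (hl : lB p b = 1) (J : Finset (G → ℂ)) (hJn : J.Nonempty) (hJB : ∀ χ ∈ J, χ ∈ B)
    (hJ : ∀ g : G, p ∣ orderOf g → ∑ χ ∈ J, χ 1 * χ g = 0) : ∀ χ ∈ B, χ ∈ J := by
  have := Fintype.ofFinite G
  exact Run7.h179.har_major hp hpO hB hD hu hb hQ hcard hbB hl hJn hJB hJ

end Pool.Agent.Results.MP_02e251_al.MajorOneBrauer
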