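import Mathlib
import Pool.Agent.Run7.h179.Fin3

/-!
Harada's conjecture for groups with a normal `p`-subgroup.
-/

set_option autoImplicit false

namespace Pool.Agent.Results.MP_02e251_al.NormalPSubgroup

open Run7.h179

/-- Let `Q` be a normal `p`-subgroup of a finite group `G` (`Q = 1` is allowed) and let `N` be a
subgroup of `G` containing all `p`-regular elements of `C_G(Q)`. Let `B = Blk p χ₀` be a `p`-block
(linkage class) of `G`. Suppose that every block of `N` covered by `B`, i.e. containing a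
constituent `η` of the restriction to `N` of a character of `B`, has at most three irreducible
Brauer characters. Let `J` be a nonempty set of irreducible characters of `B` with
`∑_{χ ∈ J} χ(1) χ(g) = 0` for all `p`-singular `g ∈ G`. Then `J` is all of `B`.

If `C_G(Q) ≤ Q`, or more generally if `C_G(Q)` is `p`-nilpotent, the hypothesis on the blocks
holds (with `N = 1` in the first case and `N` the normal `p`-complement in the second one). -/
theorem result (G : Type) [Group G] [Fintype G] (p : ℕ) (hp : p.Prime) (Q N : Subgroup G)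
    [Q.Normal] [Fintype N] (hQ : IsPGroup p Q)
    (hN : ∀ g : G, Nat.Coprime (orderOf g) p → (∀ q ∈ Q, q * g = g * q) → g ∈ N)
    (χ₀ : G → ℂ) (J : Finset (G → ℂ)) (h₀ : SimpleChar χ₀)
    (hl : ∀ η : N → ℂ, SimpleChar η → (∃ χ ∈ Blk p χ₀, ∑ n : N, χ n * η n⁻¹ ≠ 0) →
      Module.finrank ℂ (Rg p (Blk p η)) ≤ 3)
    (hJn : J.Nonempty) (hJB : ∀ χ ∈ J, χ ∈ Blk p χ₀)
    (hJ : ∀ g : G, p ∣ orderOf g → ∑ χ ∈ J, χ (1 : G) * χ g = 0) :
    ∀ χ ∈ Blk p χ₀, χ ∈ J :=
  red_normal hp Q N hQ hN h₀ (fun η hη hc => haradaAt_of_le_three hp hη (hl η hη hc)) J hJn hJB hJ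

end Pool.Agent.Results.MP_02e251_al.NormalPSubgroup
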