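import Mathlib
import Pool.Agent.Run7.h179.Min3
import Pool.Agent.H515.SP.Val

/-!
The structure of a minimal counterexample to Harada's conjecture.
-/

set_option autoImplicit false

namespace Pool.Agent.Results.MP_02e251_al.Reduction

open Run7.h179

/-- If Harada's conjecture fails for a `p`-block of a finite group `G`, then it fails for the
block `Blk p ψ₀` of a finite group `X` with the following properties:
1. `X` has no nontrivial normal `p`-subgroup;
2. every normal subgroup of `X` of order prime to `p` is central;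
3. the center of `X` is cyclic;
4. no proper subgroup of `X` contains all `p`-regular elements of `X`;
5. for each normal subgroup `N` of `X` the constituents of the restrictions to `N` of all
   characters of the block belong to one and the same block of `N`;
6. the block is invariant under multiplication by linear characters of prime order;
7. `X` is not the central product of two noncentral subgroups;
8. `X ⧸ Z(X)` is a homomorphic image of a subgroup of `G`. -/
theorem result (G : Type) [Group G] [Fintype G] (p : ℕ) (hp : p.Prime) (χ₀ : G → ℂ)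
    (h₀ : SimpleChar χ₀) (hnot : ¬ HaradaAt p χ₀) :
    ∃ (X : Type) (_ : Group X) (_ : Fintype X) (ψ₀ : X → ℂ), SimpleChar ψ₀ ∧ ¬ HaradaAt p ψ₀ ∧
      (∀ Q : Subgroup X, Q.Normal → IsPGroup p Q → Q = ⊥) ∧
      (∀ M : Subgroup X, M.Normal → ¬ p ∣ Nat.card M → M ≤ Subgroup.center X) ∧
      IsCyclic (Subgroup.center X) ∧
      (∀ N : Subgroup X, (∀ x : X, ¬ p ∣ orderOf x → x ∈ N) → N = ⊤) ∧
      (∀ (N : Subgroup X) [Fintype N], N.Normal → ∀ χ ∈ Blk p ψ₀, ∀ χ' ∈ Blk p ψ₀,
        ∀ η η' : N → ℂ, SimpleChar η → SimpleChar η' → ∑ n : N, χ n * η n⁻¹ ≠ 0 →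
          ∑ n : N, χ' n * η' n⁻¹ ≠ 0 → η' ∈ Blk p η) ∧
      (∀ (l : X →* ℂˣ) (q : ℕ), q.Prime → (∀ x, l x ^ q = 1) → ∀ χ ∈ Blk p ψ₀,
        (fun x => (l x : ℂ) * χ x) ∈ Blk p ψ₀) ∧
      (∀ X₁ X₂ : Subgroup X, (∀ a ∈ X₁, ∀ b ∈ X₂, a * b = b * a) → X₁ ⊔ X₂ = ⊤ →
        X₁ ≤ Subgroup.center X ∨ X₂ ≤ Subgroup.center X) ∧
      ∃ (H : Subgroup G) (f : H →* X ⧸ Subgroup.center X), Function.Surjective f := by
  haveI : Fact p.Prime := ⟨hp⟩
  obtain ⟨O, hpO⟩ := Pool.Agent.H515.SP.exists_O p hp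
  obtain ⟨X, _, _, ψ₀, ⟨h1, h2, h3, h4, h5, h6, h7, h8, h9⟩, h10⟩ :=
    min_aux hpO _ _ G rfl rfl χ₀ h₀ hnot
  refine ⟨X, _, _, ψ₀, h1, h2, h3, h4, h5, h6, ?_, h8, h9, h10⟩
  intro N hF hN χ hχ χ' hχ' η η' hη hη' e1 e2
  have e3 := h7 N hN χ hχ χ' hχ' η η' hη hη' (by rwa [finsum_eq_sum_of_fintype])
    (by rwa [finsum_eq_sum_of_fintype])
  have e4 : Fintype.ofFinite N = hF := Subsingleton.elim _ _
  rw [← e4]
  exact e3

end Pool.Agent.Results.MP_02e251_al.Reduction
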