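import Mathlib
import Pool.Agent.Run7.h179.Har7

/-!
Harada's conjecture: the rank theorem, which covers all blocks with at most three irreducible
Brauer characters.
-/

set_option autoImplicit false

namespace Pool.Agent.Results.MP_02e251_al.ThreeBrauer

open Run7.h179 Pool.Agent.H254R3.IN Pool.Agent.N20

/-- Let `B = Blk p χ₀` be a `p`-block (linkage class) of a finite group `G` and let `J` be a
nonempty set of irreducible characters of `B` with `∑_{χ ∈ J} χ(1) χ(g) = 0` for all `p`-singular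
`g ∈ G`. Let `l(B) = dim Rg p B` be the dimension of the span of the restrictions of the characters
of `B` to the `p`-regular elements and let `k°(B)` be the number of distinct restrictions of the
characters of `B` to the `p`-regular elements. If `J` is not all of `B`, then the spans of
the restrictions of `J` and of `B \ J` to the `p`-regular elements meet in a space of dimension `r`
with `2 ≤ r ≤ min (l(B) - 2, k°(B) - l(B))`. In particular `J` is all of `B` if `l(B) ≤ 3` or
`k°(B) ≤ l(B) + 1`. -/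
theorem result (G : Type) [Group G] [Fintype G] (p : ℕ) (hp : p.Prime) (χ₀ : G → ℂ)
    (J : Finset (G → ℂ)) (h₀ : SimpleChar χ₀) (hJn : J.Nonempty)
    (hJB : ∀ χ ∈ J, χ ∈ Blk p χ₀)
    (hJ : ∀ g : G, p ∣ orderOf g → ∑ χ ∈ J, χ (1 : G) * χ g = 0) :
    (∀ χ ∈ Blk p χ₀, χ ∈ J) ∨
      (2 ≤ Module.finrank ℂ
        (Rg p (J : Set (G → ℂ)) ⊓ Rg p (Blk p χ₀ \ (J : Set (G → ℂ))) : Submodule ℂ _) ∧
      Module.finrank ℂ
        (Rg p (J : Set (G → ℂ)) ⊓ Rg p (Blk p χ₀ \ (J : Set (G → ℂ))) : Submodule ℂ _) + 2 ≤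
          Module.finrank ℂ (Rg p (Blk p χ₀)) ∧
      Module.finrank ℂ
        (Rg p (J : Set (G → ℂ)) ⊓ Rg p (Blk p χ₀ \ (J : Set (G → ℂ))) : Submodule ℂ _) +
          Module.finrank ℂ (Rg p (Blk p χ₀)) ≤
            Nat.card ((fun χ : G → ℂ => fun g : {g : G // ¬ p ∣ orderOf g} => χ g) '' Blk p χ₀ :
              Set _)) := by
  haveI : Fact p.Prime := ⟨hp⟩
  obtain ⟨O, hpO⟩ := Pool.Agent.H515.SP.exists_O p hp
  obtain ⟨B, hB, hχ₀⟩ := exists_block O (simple_iff.mp h₀)
  have hBe : Blk p χ₀ = B := blk_eq hpO hB hχ₀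
  rw [hBe] at hJB ⊢
  by_cases h : ∀ χ ∈ B, χ ∈ J
  · exact Or.inl h
  · refine Or.inr ?_
    push Not at h
    exact har_rank hp hpO hB hJn hJB hJ h

end Pool.Agent.Results.MP_02e251_al.ThreeBrauer
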